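import Pool.Agent.Q41.ZP.KFamP
import Pool.Agent.Q41.ZP.TropW

/-!
# MP_b7926e_nt: no atypical intersections for ALL systems of Laurent polynomials in general position
over the integral closure `S_t` of `Λ[1 / h(t)]`, for all but `O(H^(q - 1 + ε))` of the integral points
`t ∈ ℤ^q`

**Rings.** Let `Λ ⊂ ℂ` be a finitely generated ring (a ring with an injection `ι : Λ → ℂ`), and `K` a
subfield of `ℂ` with `Λ ⊆ K`. Let `f_l ∈ ℤ[t_1, …, t_q]`, `l ≤ M`, be polynomials irreducible over `ℤ`
and over `K`, none of which divides another, and `h ∈ Λ[t_1, …, t_q]` a polynomial not divisible by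
any `f_l` over `K`. For an integral point `t` let `R_t = Λ[1 / h(t)] ⊂ ℂ` (`ringR`) and let `S_t` be the
INTEGRAL CLOSURE of `R_t` in `ℂ`. For `Λ = ℤ`, `h = 1` it is the ring of all algebraic integers.

**Systems.** Let `A_1, …, A_m ⊂ ℤ^n` be finite sets of exponents, `B_j ⊆ A_j`, let `e_ljβ` be natural
numbers, and let `s_jβ ∈ S_t`, `β ∈ A_j`, be arbitrary (zero is allowed), units of `S_t` for
`β ∈ B_j`. They define the algebraic set `X ⊂ (ℂ^×)^n` (`zeros`) of the common zeros of the Laurent
polynomials `∑_β s_jβ ∏_l f_l(t)^(e_ljβ) x^β`, `β ∈ A_j`. The weak tropicalization `T_l` (`WeakTrop`)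
is the set of the `v ∈ ℚ^n` such that for no `j` the minimum of the numbers `e_ljβ + β · v`, `β ∈ A_j`,
is attained only once, at an element of `B_j`. (If `B_j = A_j` it is the tropicalization. In general
it is enough that `B_j` contains the vertices of the regular subdivision given by `e_l`, and the
other coefficients do not matter.)

**Theorem.** For every `ε > 0` there is a constant `C` such that for all but `C H^(q - 1 + ε)` of the
integral points `t` with `max |t_i| ≤ H` the following is true for ALL `n`, `m`, `r`, ALL supports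
`A_j ⊂ ℤ^n` and `B_j ⊆ A_j`, ALL exponents `e` and ALL coefficients `s` as above (`AllGood`): if no
linear subspace of `ℚ^n` of dimension less than `r` meets all the sets `T_l`, then `X` has no atypical
intersection with the torsion cosets, and more generally with the cosets `η H` of all algebraic
subgroups `H` of the torus by all points `η` whose coordinates are units of `S_t`: every irreducible
subset of `X ∩ η H` has dimension at most `dim H - r`. In particular (`H` the torus) all components
of `X` have dimension at most `n - r`, and for the components `V` of dimension `n - r` the union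
`Atyp(V)` of the problem is empty.

So one exceptional set of integral points `t` is good for all systems at once, in any number of
variables, of any degrees, and with arbitrary coefficients in `S_t`; it depends only on the `f_l`, on
`Λ` and `h`. Example: let `X_0` be given by Laurent polynomials over `S_t` such that the coefficients at
the vertices of their Newton polytopes are units. The translate of `X_0` by the point
`∏_l f_l(t)^(a_l)`, `a_l ∈ ℤ^n`, is of this form, `T_l` is the translate by `a_l` of a fixed fan (the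
intersection of the codimension one skeletons of the normal fans), so that the condition is that no
linear space of dimension less than `r` meets all these translates of the fan.

The exponent `q - 1` is the best possible. In all earlier results the exceptional set belongs to one
family of systems, the coefficients of which are given functions of the parameter times units. The
proof: for all but few `t` there are prime ideals of `Λ` above prime divisors of the `f_l (t)` which do
not contain the other `f_l' (t)` and `h(t)` (`Q41.ZP.exists_valuations`, from Chevalley's theorem and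
sieve bounds); they are dominated by valuation rings of `ℂ`, which contain `S_t`. The local criterion
(`Q41.ZP.critW`) is a version of that of `Y199.ZF` in which only the orders of the dominating
coefficients are known.
-/

set_option autoImplicit false

namespace Pool.Agent.Results.MP_b7926e_nt.AllSystems

open Pool.Agent.Results.MP_b7926e_nt.NoAtypical (coset idealOf dim)

/-- The value of a polynomial at an integral point. -/
noncomputable def valueOf {Λ : Type} [CommRing Λ] {q : ℕ} (t : Fin q → ℤ)
    (h : MvPolynomial (Fin q) Λ) : Λ :=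
  MvPolynomial.eval (fun i => (t i : Λ)) h

/-- The ring `R_t = Λ[1 / h(t)]`. -/
def ringR {Λ : Type} [CommRing Λ] (ι : Λ →+* ℂ) {q : ℕ} (h : MvPolynomial (Fin q) Λ)
    (t : Fin q → ℤ) : Subring ℂ :=
  Subring.closure (insert (ι (valueOf t h))⁻¹ (Set.range ι))

/-- `z` is a unit of the integral closure of `R` in `ℂ`. -/
def IsUnitOver (R : Subring ℂ) (z : ℂ) : Prop :=
  z ≠ 0 ∧ IsIntegral R z ∧ IsIntegral R z⁻¹

/-- The algebraic subset of the torus defined by the Laurent polynomials `∑_β b_jβ x^β`. -/
def zeros {n m : ℕ} (A : Fin m → Finset (Fin n → ℤ)) (b : Fin m → (Fin n → ℤ) → ℂ) :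
    Set (Fin n → ℂ) :=
  {x | (∀ i, x i ≠ 0) ∧ ∀ j, ∑ β ∈ A j, b j β * ∏ i, x i ^ β i = 0}

/-- The weak tropicalization: the points `v` at which for no `j` the minimum of `e_jβ + β · v` over
`β ∈ A_j` is attained only once, at an element of `B_j`. -/
def WeakTrop {n m : ℕ} (A B : Fin m → Finset (Fin n → ℤ)) (e : Fin m → (Fin n → ℤ) → ℕ) :
    Set (Fin n → ℚ) :=
  {v | ∀ j, ∀ a ∈ B j, ∃ β ∈ A j, β ≠ a ∧
    (e j β : ℚ) + ∑ i, (β i : ℚ) * v i ≤ (e j a : ℚ) + ∑ i, (a i : ℚ) * v i}

/-- No linear space of dimension less than `r` meets all the sets `T l`. -/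
def InGeneralPosition (r : ℕ) {n M : ℕ} (T : Fin M → Set (Fin n → ℚ)) : Prop :=
  ∀ L : Submodule ℚ (Fin n → ℚ), Module.finrank ℚ L < r → ∃ l, ∀ v ∈ L, v ∉ T l

/-- `X` has no atypical intersection with the cosets of algebraic subgroups by points whose
coordinates are units over `R`: every irreducible subset `W` of `X ∩ η H` has dimension at most
`dim H - r`. Here `η H = {y | y ^ a = η ^ a for all a in Λ}` and `dim H = n - rank Λ`. -/
def NoAtypical {n : ℕ} (r : ℕ) (R : Subring ℂ) (X : Set (Fin n → ℂ)) : Prop :=
  ∀ (Λ : Submodule ℤ (Fin n → ℤ)) (η : Fin n → ℂ), (∀ i, IsUnitOver R (η i)) →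
    ∀ W : Set (Fin n → ℂ), W ⊆ X → W ⊆ coset Λ η → (idealOf W).IsPrime →
      dim W + (r : Cardinal) + (Module.finrank ℤ Λ : Cardinal) ≤ (n : Cardinal)

/-- All systems of Laurent polynomials over the integral closure of `R`, in any number of variables,
with coefficients divisible by given monomials in the numbers `F l`, and some of them associated to
these monomials, so that the weak tropicalizations are in general position, have no atypical
intersections. -/
def AllGood (R : Subring ℂ) {M : ℕ} (F : Fin M → ℂ) : Prop :=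
  ∀ (n m r : ℕ) (A B : Fin m → Finset (Fin n → ℤ)) (e : Fin M → Fin m → (Fin n → ℤ) → ℕ)
    (s : Fin m → (Fin n → ℤ) → ℂ), (∀ j, B j ⊆ A j) → (∀ j, ∀ β ∈ A j, IsIntegral R (s j β)) →
    (∀ j, ∀ β ∈ B j, IsUnitOver R (s j β)) → InGeneralPosition r (fun l => WeakTrop A B (e l)) →
    NoAtypical r R (zeros A fun j β => s j β * ∏ l, F l ^ e l j β)

/-- `f` divides `P` over the field `K`. -/
def DividesOver {Λ : Type} [CommRing Λ] (ι : Λ →+* ℂ) (K : Subfield ℂ) (hK : ∀ a, ι a ∈ K) {q : ℕ}
    (f : MvPolynomial (Fin q) ℤ) (P : MvPolynomial (Fin q) Λ) : Prop :=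
  MvPolynomial.map (Int.castRingHom K) f ∣ MvPolynomial.map (ι.codRestrict K hK) P

/-- No atypical intersections for all systems of Laurent polynomials in general position over the
integral closure of `Λ[1 / h(t)]`, for all but few integral points `t`. -/
theorem result {Λ : Type} [CommRing Λ] [Algebra.FiniteType ℤ Λ] (ι : Λ →+* ℂ)
    (hι : Function.Injective ι) (K : Subfield ℂ) (hK : ∀ a, ι a ∈ K) {q M : ℕ}
    (f : Fin M → MvPolynomial (Fin q) ℤ) (hf : ∀ l, Irreducible (f l))
    (hfK : ∀ l, Irreducible (MvPolynomial.map (Int.castRingHom K) (f l)))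
    (hf2 : ∀ l l', l ≠ l' → ¬ f l ∣ f l')
    (h : MvPolynomial (Fin q) Λ) (hh : ∀ l, ¬ DividesOver ι K hK (f l) h)
    (ε : ℝ) (hε : 0 < ε) :
    ∃ C : ℝ, ∀ H : ℕ, 1 ≤ H → (Set.ncard {t : Fin q → ℤ | (∀ i, |t i| ≤ (H : ℤ)) ∧
      ¬ AllGood (ringR ι h t) fun l => ((MvPolynomial.eval t (f l) : ℤ) : ℂ)} : ℝ) ≤
      C * (H : ℝ) ^ ((q : ℝ) - 1 + ε) := by
  classical
  obtain ⟨C, hC⟩ := Pool.Agent.Q41.ZP.exists_valuations ι hι K hK f hf hfK hf2
    (fun x : Empty => x.elim) (fun l x => x.elim) h hh hε
  refine ⟨C, fun H hH => le_trans ?_ (hC H hH)⟩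
  rw [Nat.cast_le]
  refine Set.ncard_le_ncard ?_ ((Fintype.piFinset fun _ : Fin q =>
    Finset.Icc (-(H : ℤ)) H).finite_toSet.subset fun t ht => ?_)
  swap
  · exact Fintype.mem_piFinset.2 fun j => Finset.mem_Icc.2 (abs_le.1 (ht.1 j))
  rintro t ⟨ht1, ht3⟩
  refine ⟨ht1, ?_⟩
  rintro ⟨hf0, hV⟩
  apply ht3
  choose V hV1 hV2 hV3 hV4 hV5 using hV
  intro n m r A B e s hBA hsA hsB hgen Λs η hη W hWX hWT hW
  have hfC : ∀ l, ((MvPolynomial.eval t (f l) : ℤ) : ℂ) ≠ 0 := fun l => Int.cast_ne_zero.2 (hf0 l)
  have hint : ∀ (l : Fin M) (z : ℂ), IsIntegral (ringR ι h t) z → (V l).valuation z ≤ 1 :=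
    fun l z hz => hV5 l z hz
  have hunit : ∀ (l : Fin M) (z : ℂ), IsUnitOver (ringR ι h t) z → (V l).valuation z = 1 := by
    rintro l z ⟨hz, h1, h2⟩
    refine le_antisymm (hint l _ h1) ?_
    have h3 := hint l _ h2
    rw [map_inv₀] at h3
    have h4 : (V l).valuation z ≠ 0 := (Valuation.ne_zero_iff _).2 hz
    exact (inv_le_one₀ (zero_lt_iff.2 h4)).1 h3
  have hval : ∀ l j β, (V l).valuation (∏ l', ((MvPolynomial.eval t (f l') : ℤ) : ℂ) ^ e l' j β) =
      (V l).valuation ((MvPolynomial.eval t (f l) : ℤ) : ℂ) ^ ((e l j β : ℕ) : ℤ) := by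
    intro l j β
    rw [map_prod, ← Finset.prod_erase_mul Finset.univ _ (Finset.mem_univ l), Finset.prod_eq_one,
      one_mul, map_pow, zpow_natCast]
    intro l' hl'
    rw [map_pow, hV3 l l' (Finset.ne_of_mem_erase hl'), one_pow]
  refine Pool.Agent.Q41.ZP.critW A B hBA
    (fun j β => s j β * ∏ l, ((MvPolynomial.eval t (f l) : ℤ) : ℂ) ^ e l j β) V
    (fun l => ((MvPolynomial.eval t (f l) : ℤ) : ℂ)) hfC hV2
    (fun l j β => (e l j β : ℤ)) (fun l j β hβ => ?_) (fun l j β hβ => ?_)
    (fun L hL => ?_) Λs η (fun i => (hη i).1) (fun l i => hunit l _ (hη i)) W hWX hWT hW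
  · rw [map_mul, hunit l _ (hsB j β hβ), one_mul, hval]
  · rw [map_mul, hval]
    exact mul_le_of_le_one_left zero_le (hint l _ (hsA j β hβ))
  · obtain ⟨l, hl⟩ := hgen L hL
    refine ⟨l, fun v hv h1 => hl v hv fun j a ha => ?_⟩
    obtain ⟨β, h2, h3, h4⟩ := h1 j a ha
    refine ⟨β, h2, h3, ?_⟩
    push_cast at h4
    exact h4

end Pool.Agent.Results.MP_b7926e_nt.AllSystems
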