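import Pool.Agent.Q57.ZP.Tor

/-!
# MP_b7926e_nt: no atypical intersections with torsion cosets for all but finitely many members of
families of subvarieties of tori with parameter in a finitely generated multiplicative group, for
arbitrary units as multipliers of all coefficients

**Families.** Let `A_1, …, A_m ⊂ ℤ^n` be arbitrary finite nonempty sets of exponents and let
`c_jβ ∈ ℂ[t]` be nonzero polynomials, `β ∈ A_j`. For `t ∈ ℂ` and arbitrary numbers `w_jβ ≠ 0`, one for
every monomial, let `X_{t,w} ⊂ (ℂ^×)^n` be the algebraic set defined by the Laurent polynomials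
`f_j = ∑_β w_jβ c_jβ(t) x^β`, `j ≤ m` (`member`).

**Parameters.** Let `F` and `P` be finite sets of complex numbers. The parameter `t` is a unit of the
ring generated by `F`; for example `t` may be any element of a given finitely generated subgroup of
the multiplicative group `ℂ^×` (take for `F` its generators and their inverses). The multipliers
`w_jβ` are arbitrary units, independent of each other, of the ring `R_t` generated by `F` and the
numbers `1 / (t - b)`, `b ∈ P`; for example arbitrary elements of the same finitely generated group,
multiplied by arbitrary powers of the `t - b`. For example, for `F = {p, 1 / p | p ∈ S}` and constant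
polynomials `c_jβ` these are the systems with arbitrary `S`-units as coefficients, and in general the
coefficients are products of `S`-units and of the values of given polynomials at an `S`-unit.

**Tropicalization.** For `α ∈ ℂ` the tropicalization of the family at `t = α` is the set `Trop_α` of
the `w ∈ ℚ^n` such that for all `j` the minimum of the numbers `ord_α (c_jβ) + β · w`, `β ∈ A_j`, is
attained at least twice.

**Theorem.** Let `D_1, …, D_M` be finite sets of complex numbers, disjoint from `P`, and suppose that
no linear subspace of `ℚ^n` of dimension less than `r` meets all the sets `Trop_{α_l}`, `l ∈ S`, if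
`S` has `N` elements and `α_l` is in `D_l`. Suppose that the union of any `M - N + 1` or more of the
sets `D_l` contains a nonzero number (for instance `M = N` and all `D_l = {α_l}` with `α_l ≠ 0`). Then
for all but finitely many units `t`, and for ALL multipliers `w` in `R_t^×`, the set `X_{t,w}` has no
atypical intersection with the torsion cosets, and more generally with the cosets `η H` of all
algebraic subgroups `H` of the torus by all points `η` whose coordinates are units of the integral
closure of `ℤ[Γ]` in `ℂ`, where `Γ` is any given finite set: every irreducible subset of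
`X_{t,w} ∩ η H` has dimension at most `dim H - r`. In particular (`H` the torus) all components of
`X_{t,w}` have dimension at most `n - r`, and for the components `V` of dimension `n - r` the union
`Atyp(V)` of the problem is empty.

The finite exceptional set of the `t` does not depend on the multipliers. For the points of an
elliptic curve over a number field instead of a finitely generated multiplicative group (and without
multipliers) this is the starting file `EllipticBase`. For rational `t` the starting file
`FewExceptionalParameters` has few, not finitely many, exceptions, and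
`MP_c95b3b_ag.FinitelyGeneratedFields` needs one or two more degenerate members; both without
multipliers.
-/

set_option autoImplicit false

namespace Pool.Agent.Results.MP_b7926e_nt.GroupParameters

open Pool.Agent.Results.MP_c95b3b_ag.FinitelyGeneratedFields (NoAtypical InGeneralPosition)

variable {n m : ℕ}

/-- The member `X_{t,w}` of the family: the points of the torus at which all the Laurent polynomials
`∑_β w_jβ c_jβ(t) x^β` vanish. -/
def member (A : Fin m → Finset (Fin n → ℤ)) (c : Fin m → (Fin n → ℤ) → Polynomial ℂ) (t : ℂ)
    (w : Fin m → (Fin n → ℤ) → ℂ) : Set (Fin n → ℂ) :=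
  {x | (∀ i, x i ≠ 0) ∧
    ∀ j, ∑ β ∈ A j, w j β * Polynomial.aeval t (c j β) * ∏ i, x i ^ β i = 0}

/-- `z` is a unit of the ring generated by `S`. -/
def IsUnitOf (S : Set ℂ) (z : ℂ) : Prop :=
  z ≠ 0 ∧ z ∈ Subring.closure S ∧ z⁻¹ ∈ Subring.closure S

/-- The generators `F`, `t` and `1 / (t - b)`, `b ∈ P`, of the ring `R_t`. -/
def generators (F P : Finset ℂ) (t : ℂ) : Set ℂ :=
  insert t ((F : Set ℂ) ∪ (fun b => (t - b)⁻¹) '' (P : Set ℂ))

/-- Families of subvarieties of the torus with parameter in a finitely generated multiplicative group
and arbitrary unit multipliers of all coefficients: only for finitely many parameters `t` there is a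
vector of multipliers for which the member has an atypical intersection. -/
theorem result {M : ℕ} (r N : ℕ) (A : Fin m → Finset (Fin n → ℤ)) (hA : ∀ j, (A j).Nonempty)
    (c : Fin m → (Fin n → ℤ) → Polynomial ℂ) (hc : ∀ j, ∀ β ∈ A j, c j β ≠ 0)
    (D : Fin M → Finset ℂ) (hgen : InGeneralPosition r N A c D)
    (Γ : Set ℂ) (hΓ : Γ.Finite) (F P : Finset ℂ) (hP : ∀ l, ∀ a ∈ D l, a ∉ P)
    (hM : ∀ I : Finset (Fin M), M < I.card + N → ∃ a ∈ I.biUnion D, a ≠ 0) :
    {t : ℂ | IsUnitOf (F : Set ℂ) t ∧ ∃ w : Fin m → (Fin n → ℤ) → ℂ,
      (∀ j, ∀ β ∈ A j, IsUnitOf (generators F P t) (w j β)) ∧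
      ¬ NoAtypical r Γ (member A c t w)}.Finite := by
  obtain ⟨W, E₀, hE₀, hFW, hcrit⟩ := Pool.Agent.Q57.ZP.tor_crit r N A hA c hc D hgen Γ hΓ F P hP
  have hE : ∀ t, t ∉ E₀ → (∃ f : Fin N → Fin M, Function.Injective f ∧
      ∀ l, ∃ a ∈ D (f l), ¬ Pool.Agent.Y910.Z.Bad (W : Set ℂ) t a) →
      t ∉ {t | ∃ w : Fin m → (Fin n → ℤ) → ℂ,
        (∀ j, ∀ β ∈ A j, IsUnitOf (generators F P t) (w j β)) ∧
        ¬ NoAtypical r Γ (member A c t w)} := by
    rintro t ht hf ⟨w, hw, hno⟩
    refine hno (hcrit t ht hf w fun j β hβ => ?_)
    exact Pool.Agent.Q57.ZP.UnitOf.mono (Pool.Agent.Q57.ZP.gens_mono hFW t) (hw j β hβ)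
  exact Pool.Agent.Q57.ZP.finite_of_bad N W D _
    (fun I hI => Pool.Agent.Q57.ZP.fin_bad_unit W F hFW D I (hM I hI)) _ E₀ hE₀ hE

end Pool.Agent.Results.MP_b7926e_nt.GroupParameters
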