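import Pool.Agent.Q116.GT.Conj
import Pool.Agent.Results.MP_c95b3b_ag.PowerTranslates

/-!
# MP_b7926e_nt: no atypical intersections for 100 percent of the translates of an arbitrary
subvariety of a torus by the elements of a finitely generated group, for example by the conjugate
vectors of units

Let `V` be an arbitrary irreducible subvariety of the torus `(ℂ^×)^n`, of any dimension. There is a
number `K`, depending only on `V`, such that the following holds.

(1) **Conjugate vectors of units.** Let `F` be a totally real number field of degree `d > K n ^ 3`, and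
`σ_1, …, σ_n` different automorphisms of `F`. Then for 100 percent of the units
`u = ∏_k ε_k ^ m_k`, `|m_k| ≤ R`, of `F` (the `ε_k`, `k < d - 1`, are fundamental units) the translate
of `V` by the point `(σ_1(u), …, σ_n(u))` has no atypical subvariety at all, and no point of it is on
an algebraic subgroup of codimension larger than `dim V`: the number of exceptions is
`O(R ^ (d - 1 - 1 / n))`.

(2) **Rational points.** Let `g_1, …, g_r` be vectors of nonzero rational numbers, and `p_i`,
`i < N`, prime numbers (small or large), `K t < N`, such that for every set `T` of `t` of these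
primes there is a product `g_1 ^ m_1 ⋯ g_r ^ m_r` for which the vectors of the `p_i`-adic valuations,
`i ∈ T`, span `ℚ^n`. Then the same is true for 100 percent of the translates by
`g_1 ^ m_1 ⋯ g_r ^ m_r`, `|m_k| ≤ R`: the number of exceptions is `O(R ^ (r - 1 / n))`. The product
may be different for different sets `T`.

(3) **The general case.** Let `v_i`, `i < N`, be any absolute values of the field `ℂ`, archimedean
or not, and let `g_1, …, g_r` be any points of `(ℂ^×)^n`, such that for every set `T` of `t` of these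
places there is a real vector `m` for which the vectors `∑_k m_k (log v_i(g_k1), …, log v_i(g_kn))`,
`i ∈ T`, span `ℝ^n`. Let `B` be a number. Then for all but `O(R ^ (r - 1 / n))` of the `m`,
`|m_k| ≤ R`, the translate of `V` by `g_1 ^ m_1 ⋯ g_r ^ m_r` has only typical intersections with all
cosets `η H` such that the numbers `log v_i(η_j)` are bounded by `B`.

The starting files `AlmostAllSUnitTranslates` and `MP_eeb1a4_ag.FinitelyGeneratedTranslates` treat
the groups `Δ^n` of all vectors with coordinates in a group `Δ` of numbers, and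
`MP_c95b3b_ag.PowerTranslates` treats the elements of a group in a cone all of whose directions are in
general position (then the exceptions are finite in number). Here the group is an arbitrary finitely
generated subgroup of the torus which is not special for any `t` of the places: it is not of the
form `Δ^n`, and it may have many special directions. In (1), for example, there are the
directions of the units of proper subfields. The exponent `r - 1 / n` comes from the number of the
integral points near the zero set of a determinant of linear forms.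
-/

set_option autoImplicit false

namespace Pool.Agent.Results.MP_b7926e_nt.GroupTranslates

open MvPolynomial NumberField NumberField.Units
open Pool.Agent.Results.MP_b7926e_nt.NoAtypical (coset idealOf dim mem_idealOf
  NoAtypicalSubvariety)
open Pool.Agent.Results.MP_c95b3b_ag.PowerTranslates (U NoAtypicalWithin)

/-- The translate of `V` by the vector `g`. -/
def translateBy {n : ℕ} (g : Fin n → ℂ) (V : Set (Fin n → ℂ)) : Set (Fin n → ℂ) :=
  {y | ∃ x ∈ V, ∀ i, y i = g i * x i}

/-- The element `∏ k, g_k ^ m_k` of the torus. -/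
noncomputable def power {ι : Type} [Fintype ι] {n : ℕ} (g : ι → Fin n → ℂ) (m : ι → ℤ) :
    Fin n → ℂ :=
  fun j => ∏ k, g k j ^ m k

/-- `W` has no atypical subvariety, and no point of `W` is on an algebraic subgroup of codimension
larger than the dimension of `W`. -/
def Good {n : ℕ} (W : Set (Fin n → ℂ)) : Prop :=
  NoAtypicalSubvariety W ∧ U W = ∅

/-- For every set `T` of `t` of the places there is a real vector `m` such that the vectors
`∑_k m_k (log v_i(g_k1), …, log v_i(g_kn))`, `i ∈ T`, span `ℝ^n`. -/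
def Generic {ι : Type} [Fintype ι] {n N : ℕ} (t : ℕ) (v : Fin N → AbsoluteValue ℂ ℝ)
    (g : ι → Fin n → ℂ) : Prop :=
  ∀ T : Finset (Fin N), T.card = t → ∃ m : ι → ℝ,
    Submodule.span ℝ (Set.range fun (i : T) (j : Fin n) => ∑ k, m k * Real.log (v i (g k j))) = ⊤

theorem general (n : ℕ) (V : Set (Fin n → ℂ)) (hV : (idealOf V).IsPrime) :
    ∃ K : ℕ, ∀ N t : ℕ, K * t < N → ∀ (v : Fin N → AbsoluteValue ℂ ℝ) (ι : Type) [Fintype ι]
      (g : ι → Fin n → ℂ), (∀ k j, g k j ≠ 0) → Generic t v g → ∀ B : ℝ, ∃ c : ℝ, ∀ R : ℕ, 1 ≤ R →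
        (Nat.card {m : ι → ℤ // (∀ k, |m k| ≤ R) ∧
          ¬ NoAtypicalWithin v B (translateBy (power g m) V)} : ℝ) ≤
            c * (R : ℝ) ^ ((Fintype.card ι : ℝ) - 1 / n) := by
  classical
  obtain ⟨K, h⟩ := TH526.ZT.criterion n V hV
  refine ⟨K, fun N t hN v ι _ g hg hgen B => ?_⟩
  obtain ⟨B', hB', hmain⟩ := h N t hN v B
  obtain ⟨c, hc0, hc⟩ := Q116.GT.count_group t (fun k i j => Real.log (v i (g k j))) hgen B'
  refine ⟨c, fun R hR => ?_⟩
  have hfin : {m : ι → ℤ | (∀ k, |m k| ≤ R) ∧
      ¬ NoAtypicalWithin v B (translateBy (power g m) V)}.Finite := by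
    refine (Set.finite_Icc (fun _ => -(R : ℤ)) (fun _ => (R : ℤ))).subset fun m hm => ?_
    exact ⟨fun k => (abs_le.1 (hm.1 k)).1, fun k => (abs_le.1 (hm.1 k)).2⟩
  have hcard : Nat.card {m : ι → ℤ // (∀ k, |m k| ≤ R) ∧
      ¬ NoAtypicalWithin v B (translateBy (power g m) V)} = hfin.toFinset.card :=
    Nat.card_eq_card_finite_toFinset hfin
  rw [hcard]
  refine hc R hR _ fun m hm => ?_
  obtain ⟨hmR, hno⟩ := hfin.mem_toFinset.1 hm
  refine ⟨hmR, ?_⟩
  have hp0 : ∀ j, power g m j ≠ 0 := fun j =>
    Finset.prod_ne_zero_iff.2 fun k _ => zpow_ne_zero _ (hg k j)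
  have hlog : ∀ i j, Real.log (v i (power g m j)) = ∑ k, (m k : ℝ) * Real.log (v i (g k j)) := by
    intro i j
    rw [power, map_prod, Real.log_prod]
    · refine Finset.sum_congr rfl fun k _ => ?_
      rw [map_zpow₀, Real.log_zpow]
    · intro k _
      rw [map_zpow₀]
      exact zpow_ne_zero _ ((v i).ne_zero (hg k j))
  rw [NoAtypicalWithin] at hno
  push Not at hno
  obtain ⟨M, η, hη, hηB, A, hAW, hAT, hA, hdim⟩ := hno
  have hdim' : dim V < dim A + (Module.finrank ℤ M : Cardinal) :=
    (TH526.ZT.dim_le_dim_tl (power g m) hp0 V).trans_lt hdim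
  obtain ⟨T, hT, φ, hφ, hφB⟩ := hmain (power g m) hp0 M η hη hηB A hAW hAT hA hdim'
  simp only [hlog] at hφB
  exact ⟨T, hT, φ, hφ, hφB⟩

theorem good_of_within {n N : ℕ} {v : Fin N → AbsoluteValue ℂ ℝ} {W : Set (Fin n → ℂ)}
    (hW0 : ∀ y ∈ W, ∀ j, y j ≠ 0) (hno : NoAtypicalWithin v 0 W) : Good W := by
  have hno' : NoAtypicalSubvariety W := by
    rintro M η ⟨k, hk, hηk⟩ A hA hAT hAp
    refine hno M η (fun j h0 => ?_) (fun i j => ?_) A hA hAT hAp
    · have := hηk j
      rw [h0, zero_pow hk.ne'] at this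
      exact zero_ne_one this
    · have h1 := congrArg (v i) (hηk j)
      rw [map_pow, map_one] at h1
      have h2 := (pow_eq_one_iff_of_nonneg (AbsoluteValue.nonneg _ _) hk.ne').1 h1
      rw [h2, Real.log_one, abs_zero]
  refine ⟨hno', ?_⟩
  rw [Set.eq_empty_iff_forall_notMem]
  rintro y ⟨hyW, M, hdim, hM⟩
  have hprime : (idealOf ({y} : Set (Fin n → ℂ))).IsPrime := by
    have h1 : idealOf ({y} : Set (Fin n → ℂ)) =
        RingHom.ker (eval y : MvPolynomial (Fin n) ℂ →+* ℂ) := by
      ext f
      rw [mem_idealOf, RingHom.mem_ker]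
      simp
    rw [h1]
    exact RingHom.ker_isPrime _
  have h1 := hno' M (fun _ => 1) ⟨1, one_pos, fun _ => one_pow _⟩ {y}
    (Set.singleton_subset_iff.2 hyW) (Set.singleton_subset_iff.2 ⟨hW0 y hyW, fun a ha => by
      rw [hM a ha]
      simp⟩) hprime
  have h2 : (Module.finrank ℤ M : Cardinal) ≤
      dim ({y} : Set (Fin n → ℂ)) + (Module.finrank ℤ M : Cardinal) := le_add_self
  exact absurd (hdim.trans_le (h2.trans h1)) (lt_irrefl _)

theorem translate_ne {ι : Type} [Fintype ι] {n : ℕ} {V : Set (Fin n → ℂ)}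
    (hV0 : ∀ x ∈ V, ∀ j, x j ≠ 0) {g : ι → Fin n → ℂ} (hg : ∀ k j, g k j ≠ 0) (m : ι → ℤ) :
    ∀ y ∈ translateBy (power g m) V, ∀ j, y j ≠ 0 := by
  rintro y ⟨x, hx, hyx⟩ j
  rw [hyx j]
  exact mul_ne_zero (Finset.prod_ne_zero_iff.2 fun k _ => zpow_ne_zero _ (hg k j)) (hV0 x hx j)

theorem card_mono {ι : Type} [Fintype ι] {P Q : (ι → ℤ) → Prop} (h : ∀ m, P m → Q m) (R : ℕ) :
    Nat.card {m : ι → ℤ // (∀ k, |m k| ≤ R) ∧ P m} ≤
      Nat.card {m : ι → ℤ // (∀ k, |m k| ≤ R) ∧ Q m} := by
  classical
  have hfin : Finite {m : ι → ℤ // (∀ k, |m k| ≤ R) ∧ Q m} := by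
    have h1 : {m : ι → ℤ | (∀ k, |m k| ≤ R) ∧ Q m}.Finite := by
      refine (Set.finite_Icc (fun _ => -(R : ℤ)) (fun _ => (R : ℤ))).subset fun m hm => ?_
      exact ⟨fun k => (abs_le.1 (hm.1 k)).1, fun k => (abs_le.1 (hm.1 k)).2⟩
    exact h1.to_subtype
  refine Nat.card_le_card_of_injective (fun m => ⟨m.1, m.2.1, h m.1 m.2.2⟩) ?_
  intro m m' hmm
  exact Subtype.ext (congrArg (fun z => z.1) hmm)

theorem countable_numberField (F : Type) [Field F] [NumberField F] : Countable F :=
  (Module.finBasis ℚ F).equivFun.toEquiv.injective.countable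

/-- Let `V` be an irreducible subvariety of the torus `(ℂ^×)^n`. There is a number `K` such that:

(1) if `F` is a totally real number field in `ℂ` of degree larger than `K n ^ 3` and `σ_1, …, σ_n` are
different automorphisms of `F`, then for all but `O(R ^ (ρ - 1 / n))` of the products
`u = ∏_k ε_k ^ m_k`, `|m_k| ≤ R`, of powers of the `ρ` fundamental units, the translate of `V` by
`(σ_1(u), …, σ_n(u))` is good: it has no atypical subvariety and no point on an algebraic subgroup
of codimension larger than `dim V`;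

(2) if `K t < N`, if `p_i`, `i < N`, are prime numbers, and `g_1, …, g_r` vectors of nonzero rational
numbers such that for every set `T` of `t` of the primes there is a rational vector `m` for which the
vectors `∑_k m_k (v_{p_i}(g_k1), …, v_{p_i}(g_kn))`, `i ∈ T`, span `ℚ^n`, then for all but
`O(R ^ (r - 1 / n))` of the integral `m`, `|m_k| ≤ R`, the translate of `V` by
`g_1 ^ m_1 ⋯ g_r ^ m_r` is good;

(3) if `K t < N`, if `v_i`, `i < N`, are absolute values of `ℂ`, and `g_1, …, g_r` are in `(ℂ^×)^n`
and generic, then for every `B` and for all but `O(R ^ (r - 1 / n))` of the integral `m`,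
`|m_k| ≤ R`, the translate of `V` by `g_1 ^ m_1 ⋯ g_r ^ m_r` has no atypical intersection with a coset
bounded by `B` at these absolute values. -/
theorem result (n : ℕ) (V : Set (Fin n → ℂ)) (hV : (idealOf V).IsPrime)
    (hV0 : ∀ x ∈ V, ∀ j, x j ≠ 0) :
    ∃ K : ℕ,
      (∀ (F : Type) [Field F] [NumberField F] [IsTotallyReal F] [Algebra F ℂ]
        (σ : Fin n → (F ≃ₐ[ℚ] F)), Function.Injective σ →
        K * n ^ 3 < Module.finrank ℚ F → ∃ c : ℝ, ∀ R : ℕ, 1 ≤ R →
          (Nat.card {m : Fin (rank F) → ℤ // (∀ k, |m k| ≤ R) ∧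
            ¬ Good (translateBy (fun j => algebraMap F ℂ
              (σ j (∏ k, (fundSystem F k : F) ^ m k))) V)} : ℝ) ≤
              c * (R : ℝ) ^ ((rank F : ℝ) - 1 / n)) ∧
      ∀ N t : ℕ, K * t < N →
        (∀ (r : ℕ) (p : Fin N → ℕ), (∀ i, (p i).Prime) → ∀ g : Fin r → Fin n → ℚ,
          (∀ k j, g k j ≠ 0) →
          (∀ T : Finset (Fin N), T.card = t → ∃ m : Fin r → ℚ, Submodule.span ℚ (Set.range
            fun (i : T) (j : Fin n) => ∑ k, m k * (padicValRat (p i) (g k j) : ℚ)) = ⊤) →
          ∃ c : ℝ, ∀ R : ℕ, 1 ≤ R →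
            (Nat.card {m : Fin r → ℤ // (∀ k, |m k| ≤ R) ∧
              ¬ Good (translateBy (power (fun k j => (g k j : ℂ)) m) V)} : ℝ) ≤
                c * (R : ℝ) ^ ((r : ℝ) - 1 / n)) ∧
        ∀ (v : Fin N → AbsoluteValue ℂ ℝ) (r : ℕ) (g : Fin r → Fin n → ℂ), (∀ k j, g k j ≠ 0) →
          Generic t v g → ∀ B : ℝ, ∃ c : ℝ, ∀ R : ℕ, 1 ≤ R →
            (Nat.card {m : Fin r → ℤ // (∀ k, |m k| ≤ R) ∧
              ¬ NoAtypicalWithin v B (translateBy (power g m) V)} : ℝ) ≤
                c * (R : ℝ) ^ ((r : ℝ) - 1 / n) := by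
  classical
  obtain ⟨K, h⟩ := general n V hV
  refine ⟨K + 1, fun F _ _ hreal _ σ hσ hF => ?_, fun N t hN => ⟨fun r p hp g hg hspan => ?_,
    fun v r g hg hgen B => ?_⟩⟩
  · -- units
    have hFc : Countable F := countable_numberField F
    have hdeg : Module.finrank ℚ F = Fintype.card (InfinitePlace F) := by
      rw [← InfinitePlace.card_add_two_mul_card_eq_rank,
        InfinitePlace.card_eq_nrRealPlaces_add_nrComplexPlaces,
        nrComplexPlaces_eq_zero_iff.2 hreal]
    rw [hdeg] at hF
    set N := Fintype.card (InfinitePlace F) with hNdef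
    have hN : K * n ^ 3 < N := lt_of_le_of_lt (Nat.mul_le_mul_right _ (Nat.le_succ K)) hF
    have hnN : n ^ 3 < N := lt_of_le_of_lt (Nat.le_mul_of_pos_left _ (Nat.succ_pos K)) hF
    let e : Fin N ≃ InfinitePlace F := (Fintype.equivFin (InfinitePlace F)).symm
    choose v hv using fun i : Fin N => TH526.ZT.exists_abs_extend F (e i).1
      (Or.inr ⟨(e i).embedding, fun x => (InfinitePlace.norm_embedding_eq (e i) x).symm⟩)
    let g : Fin (rank F) → Fin n → ℂ := fun k j => algebraMap F ℂ (σ j (fundSystem F k : F))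
    have hg : ∀ k j, g k j ≠ 0 := fun k j =>
      (map_ne_zero _).2 ((map_ne_zero _).2 (Units.coe_ne_zero _))
    have hgen : Generic (n ^ 3) v g := by
      intro T hT
      have hT' : (T.image e).card = n ^ 3 := by
        rw [Finset.card_image_of_injective _ e.injective, hT]
      obtain ⟨m, hm⟩ := Q116.GT.conj_generic hreal σ hσ (T.image e) hT' hnN
      refine ⟨m, ?_⟩
      rw [← hm]
      congr 1
      ext x
      constructor
      · rintro ⟨i, rfl⟩
        refine ⟨⟨e i, Finset.mem_image_of_mem e i.2⟩, ?_⟩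
        funext j
        refine Finset.sum_congr rfl fun k _ => ?_
        rw [hv]
        rfl
      · rintro ⟨w, rfl⟩
        obtain ⟨i, hi, hiw⟩ := Finset.mem_image.1 w.2
        refine ⟨⟨i, hi⟩, ?_⟩
        funext j
        refine Finset.sum_congr rfl fun k _ => ?_
        rw [hv, ← hiw]
        rfl
    obtain ⟨c, hc⟩ := h N (n ^ 3) hN v (Fin (rank F)) g hg hgen 0
    refine ⟨c, fun R hR => ?_⟩
    have h1 := hc R hR
    rw [Fintype.card_fin] at h1
    refine le_trans ?_ h1
    have h2 : ∀ m : Fin (rank F) → ℤ, power g m =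
        fun j => algebraMap F ℂ (σ j (∏ k, (fundSystem F k : F) ^ m k)) := by
      intro m
      funext j
      rw [power, map_prod, map_prod]
      refine Finset.prod_congr rfl fun k _ => ?_
      rw [map_zpow₀, map_zpow₀]
    have h3 := card_mono (ι := Fin (rank F))
      (P := fun m => ¬ Good (translateBy
        (fun j => algebraMap F ℂ (σ j (∏ k, (fundSystem F k : F) ^ m k))) V))
      (Q := fun m => ¬ NoAtypicalWithin v 0 (translateBy (power g m) V))
      (fun m hm hno => hm (by
        rw [← h2]
        exact good_of_within (translate_ne hV0 hg m) hno)) R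
    exact_mod_cast h3
  · -- rational numbers
    have hN' : K * t < N := lt_of_le_of_lt (Nat.mul_le_mul_right t (Nat.le_succ K)) hN
    have hfact : ∀ i, Fact (p i).Prime := fun i => ⟨hp i⟩
    let τ : ∀ i, ℂ →+* PadicAlgCl (p i) := fun i =>
      Classical.choice (H936R2.exists_embedding (p i))
    have hgen : Generic t (fun i => TH526.ZT.pabs (p i) (τ i)) (fun k j => ((g k j : ℚ) : ℂ)) := by
      intro T hT
      obtain ⟨m, hm⟩ := hspan T hT
      refine ⟨fun k => (m k : ℝ), ?_⟩
      have h1 := TH526.ZT.span_real _ hm (fun i : T => -Real.log (p i))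
        (fun i => neg_ne_zero.2 (Real.log_pos (by exact_mod_cast (hp i).one_lt)).ne')
      rw [← h1]
      congr 2
      funext i j
      simp only [TH526.ZT.log_pabs _ _ _ (hg _ j)]
      push_cast
      rw [Finset.mul_sum]
      refine Finset.sum_congr rfl fun k _ => ?_
      ring
    obtain ⟨c, hc⟩ := h N t hN' _ (Fin r) (fun k j => ((g k j : ℚ) : ℂ))
      (fun k j => Rat.cast_ne_zero.2 (hg k j)) hgen 0
    refine ⟨c, fun R hR => ?_⟩
    have h1 := hc R hR
    rw [Fintype.card_fin] at h1
    refine le_trans ?_ h1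
    have h3 := card_mono (ι := Fin r)
      (P := fun m => ¬ Good (translateBy (power (fun k j => (g k j : ℂ)) m) V))
      (Q := fun m => ¬ NoAtypicalWithin (fun i => TH526.ZT.pabs (p i) (τ i)) 0
        (translateBy (power (fun k j => (g k j : ℂ)) m) V))
      (fun m hm hno => hm
        (good_of_within (translate_ne hV0 (fun k j => Rat.cast_ne_zero.2 (hg k j)) m) hno)) R
    exact_mod_cast h3
  · have hN' : K * t < N := lt_of_le_of_lt (Nat.mul_le_mul_right t (Nat.le_succ K)) hN
    obtain ⟨c, hc⟩ := h N t hN' v (Fin r) g hg hgen B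
    refine ⟨c, fun R hR => ?_⟩
    have h1 := hc R hR
    rwa [Fintype.card_fin] at h1

end Pool.Agent.Results.MP_b7926e_nt.GroupTranslates
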