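import Pool.Agent.Q57.ZP.EllU
import Pool.Agent.Results.MP_b7926e_nt.EllipticBase

/-!
# MP_b7926e_nt: no atypical intersections with cosets by units for all but finitely many members of
families of subvarieties of tori over an elliptic curve, with arbitrary units as multipliers of the
coefficients

**The base.** Let `a, b` be algebraic numbers with `4 a³ + 27 b² ≠ 0` and let `Curve a b` be the set of
the affine points `P = (x, y)` of the elliptic curve `y² = x³ + a x + b`; the order `e` of a function
`c ∈ ℂ[x, y]` at a point `Q` of the curve is defined by `c = loc^e g / h` with functions `g, h` which do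
not vanish at `Q` (`HasOrder`, starting file `EllipticBase`).

**The families.** Let `A_1, …, A_m ⊂ ℤ^n` be arbitrary finite nonempty sets of exponents and let
`c_jβ ∈ ℂ[x, y]`, `β ∈ A_j`. For a point `P` of the curve and nonzero numbers `w_jβ` let
`X_{P,w} ⊂ (ℂ^×)^n` be the algebraic set defined by the Laurent polynomials
`f_j = ∑_β w_jβ c_jβ(P) x^β`, `j ≤ m` (`member`).

**Multipliers.** Let `F ⊂ ℂ` be a finite set, `H` a finite set of functions in `ℂ[x, y]` and let `R_P` be
the ring generated by `F`, the coordinates of `P` and the numbers `h(P)⁻¹`, `h ∈ H` (`generators`). The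
multipliers `w_jβ` are arbitrary units of the integral closure of `R_P` in `ℂ`, independent of each
other: for instance arbitrary units of the ring of all algebraic integers, arbitrary roots of `S`-units,
and products of arbitrary, also fractional, powers of the values `h(P)`, `h ∈ H`, positive or
negative.

**Theorem.** Let `Q_1, …, Q_M` be points of the curve with algebraic coordinates which are not zeros of
the functions in `H`, and such that no linear subspace of `ℚ^n` of dimension less than `r` meets all the
tropicalizations `Trop_{Q_l}` (the set of the `v ∈ ℚ^n` such that for all `j` the minimum of the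
`ord_{Q_l} (c_jβ) + β · v`, `β ∈ A_j`, is attained at least twice). Let `E` be a number field in `ℂ`.
Then for all but finitely many of the points `P` of the elliptic curve over `E` and for ALL
multipliers `w` the set `X_{P,w}` has no atypical intersection with the cosets `η H` of all algebraic
subgroups `H` of the torus by all points `η` whose coordinates are units of the integral closure of
`R_P` (so the points `η` depend on `P`): every irreducible subset of `X_{P,w} ∩ η H` has dimension at
most `dim H - r`. This includes the torsion cosets, so for the components `V` of `X_{P,w}` of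
dimension `n - r` the union `Atyp(V)` of the problem is empty. The finite set of the exceptional points
`P` does not depend on `w`.

The starting file `EllipticBase` is the case that all the multipliers are `1` and the cosets do not
depend on `P`. Here the members form a family with `1 + ∑ |A_j|` parameters, in which all but finitely
many values of the first one are allowed.
-/

set_option autoImplicit false

namespace Pool.Agent.Results.MP_b7926e_nt.TwistsOverEllipticCurves

open Pool.Agent.Results.MP_b7926e_nt.EllipticBase (Curve loc HasOrder Trop IsUnitOver NoAtypical)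

variable {n m : ℕ}

/-- The member `X_{P,w}` of the family: the points of the torus at which all the Laurent polynomials
`∑_β w_jβ c_jβ(P) x^β` vanish. -/
def member (A : Fin m → Finset (Fin n → ℤ)) (c : Fin m → (Fin n → ℤ) → MvPolynomial (Fin 2) ℂ)
    (w : Fin m → (Fin n → ℤ) → ℂ) (P : Fin 2 → ℂ) : Set (Fin n → ℂ) :=
  {x | (∀ i, x i ≠ 0) ∧ ∀ j, ∑ β ∈ A j, w j β * MvPolynomial.eval P (c j β) * ∏ i, x i ^ β i = 0}

/-- The generators of the ring `R_P`: the coordinates of `P`, the elements of `F` and the inverses of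
the values at `P` of the functions in `H`. -/
def generators (F : Finset ℂ) (H : Finset (MvPolynomial (Fin 2) ℂ)) (P : Fin 2 → ℂ) : Set ℂ :=
  Set.range P ∪ ((F : Set ℂ) ∪ (fun h => (MvPolynomial.eval P h)⁻¹) '' (H : Set _))

/-- **Families of subvarieties of tori over an elliptic curve with arbitrary unit multipliers**: only
for finitely many points `P` over a number field there are units `w` of the integral closure of `R_P`
such that `X_{P,w}` has an atypical intersection with cosets by units of the integral closure of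
`R_P`. -/
theorem result {M : ℕ} (r : ℕ) (hr : 1 ≤ r) (A : Fin m → Finset (Fin n → ℤ))
    (hA : ∀ j, (A j).Nonempty) (c : Fin m → (Fin n → ℤ) → MvPolynomial (Fin 2) ℂ) (a b : ℂ)
    (ha : IsAlgebraic ℚ a) (hb : IsAlgebraic ℚ b) (hab : 4 * a ^ 3 + 27 * b ^ 2 ≠ 0)
    (Q : Fin M → Fin 2 → ℂ) (hQ : ∀ l, Q l ∈ Curve a b) (hQa : ∀ l i, IsAlgebraic ℚ (Q l i))
    (e : Fin M → Fin m → (Fin n → ℤ) → ℕ)
    (he : ∀ l j, ∀ β ∈ A j, HasOrder a b (Q l) (c j β) (e l j β))
    (hgen : ∀ L : Submodule ℚ (Fin n → ℚ), Module.finrank ℚ L < r →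
      ∃ l, ∀ w ∈ L, w ∉ Trop A fun j β => (e l j β : ℤ))
    (F : Finset ℂ) (H : Finset (MvPolynomial (Fin 2) ℂ))
    (hH : ∀ l, ∀ h ∈ H, MvPolynomial.eval (Q l) h ≠ 0)
    (E : IntermediateField ℚ ℂ) [FiniteDimensional ℚ E] :
    {P : Fin 2 → ℂ | P ∈ Curve a b ∧ (∀ i, P i ∈ E) ∧
      ∃ w : Fin m → (Fin n → ℤ) → ℂ, (∀ j, ∀ β ∈ A j, IsUnitOver (generators F H P) (w j β)) ∧
        ¬ NoAtypical r (generators F H P) (member A c w P)}.Finite := by
  classical
  have he' : ∀ l j β, ∃ g h : MvPolynomial (Fin 2) ℂ, β ∈ A j →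
      MvPolynomial.eval (Q l) g ≠ 0 ∧ MvPolynomial.eval (Q l) h ≠ 0 ∧
      ∀ P ∈ Curve a b, MvPolynomial.eval P h * MvPolynomial.eval P (c j β) =
        loc (Q l) P ^ (e l j β) * MvPolynomial.eval P g := by
    intro l j β
    by_cases hβ : β ∈ A j
    · obtain ⟨g, h, h1⟩ := he l j β hβ
      exact ⟨g, h, fun _ => h1⟩
    · exact ⟨0, 0, fun h => absurd h hβ⟩
  choose g h hgh using he'
  -- the numbers which have to be integral
  let S : Fin M → Finset ℂ := fun l => Pool.Agent.Q57.ZP.numsE F H (Q l) ∪
    Finset.univ.biUnion fun j => (A j).biUnion fun β =>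
      ((g l j β).support.image fun k => (g l j β).coeff k) ∪
      ((h l j β).support.image fun k => (h l j β).coeff k) ∪
      {(MvPolynomial.eval (Q l) (g l j β))⁻¹, (MvPolynomial.eval (Q l) (h l j β))⁻¹}
  have hcomb : ∀ l j β, β ∈ A j → ∀ z, z ∈ ((g l j β).support.image fun k => (g l j β).coeff k) ∪
      ((h l j β).support.image fun k => (h l j β).coeff k) ∪
      {(MvPolynomial.eval (Q l) (g l j β))⁻¹, (MvPolynomial.eval (Q l) (h l j β))⁻¹} →
      z ∈ S l := by
    intro l j β hβ z hz
    simp only [S]
    refine Finset.mem_union_right _ (Finset.mem_biUnion.2 ⟨j, Finset.mem_univ _,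
      Finset.mem_biUnion.2 ⟨β, hβ, hz⟩⟩)
  have hfin : ∀ l, {P : Fin 2 → ℂ | P ∈ Curve a b ∧ loc (Q l) P = 0}.Finite := by
    intro l
    by_cases h1 : Q l 1 = 0
    · refine (Pool.Agent.Y199.SG.zero_finite a b).subset ?_
      rintro P ⟨h2, h3⟩
      rw [loc, if_pos h1] at h3
      exact ⟨h2, h3⟩
    · refine (Pool.Agent.Y199.SG.fibre_finite a b (Q l 0)).subset ?_
      rintro P ⟨h2, h3⟩
      rw [loc, if_neg h1] at h3
      exact ⟨h2, sub_eq_zero.1 h3⟩
  have hbad := (Pool.Agent.Y199.SG.ZPZ.near_all a b ha hb hab Q hQ hQa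
    (Finset.univ.biUnion S) E).union (Set.finite_iUnion fun l : Fin M => hfin l)
  refine hbad.subset ?_
  rintro P ⟨hP, hPE, w, hw, hcon⟩
  by_contra hnot
  simp only [Set.mem_iUnion, Set.mem_union, not_exists, not_or] at hnot
  apply hcon
  have hnear : ∀ l, ∃ V : ValuationSubring ℂ, (∀ z ∈ Finset.univ.biUnion S, z ∈ V) ∧
      ∀ i, V.valuation (P i - Q l i) < 1 := by
    by_contra h2
    exact hnot.1 ⟨hP, hPE, h2⟩
  -- the places
  choose V hVS hVn using hnear
  have hVS' : ∀ l, ∀ z ∈ S l, z ∈ V l := fun l z hz =>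
    hVS l z (Finset.mem_biUnion.2 ⟨l, Finset.mem_univ _, hz⟩)
  have hQV : ∀ l i, Q l i ∈ V l := by
    intro l i
    refine hVS' l _ (Finset.mem_union_left _ ?_)
    simp only [Pool.Agent.Q57.ZP.numsE, Finset.mem_union]
    refine Or.inl (Or.inr ?_)
    fin_cases i
    · exact Finset.mem_insert_self _ _
    · exact Finset.mem_insert_of_mem (Finset.mem_singleton_self _)
  have hgenV : ∀ l, ∀ x ∈ generators F H P, x ∈ V l := fun l =>
    Pool.Agent.Q57.ZP.gens_near (V l) (hVn l) (fun z hz => hVS' l z (Finset.mem_union_left _ hz))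
      (hH l)
  have hunit : ∀ l, ∀ z, IsUnitOver (generators F H P) z → (V l).valuation z = 1 := fun l z hz =>
    Pool.Agent.Q57.ZP.IntUnit.val hz (V l) (hgenV l)
  have hV1 : ∀ l, (V l).valuation (loc (Q l) P) < 1 := fun l =>
    Pool.Agent.Q57.ZP.loc_near (V l) (hVn l)
  have hV3 : ∀ l j, ∀ β ∈ A j, (V l).valuation (MvPolynomial.eval P (c j β)) =
      (V l).valuation (loc (Q l) P) ^ (e l j β) := by
    intro l j β hβ
    obtain ⟨hg0, hh0, heq⟩ := hgh l j β hβ
    have hmem := fun z hz => hVS' l z (hcomb l j β hβ z hz)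
    have hcoef : ∀ q : MvPolynomial (Fin 2) ℂ, (∀ k ∈ q.support, q.coeff k ∈ V l) →
        ∀ k, q.coeff k ∈ V l := by
      intro q hq k
      by_cases h2 : k ∈ q.support
      · exact hq k h2
      · rw [MvPolynomial.notMem_support_iff.1 h2]
        exact zero_mem _
    exact Pool.Agent.Q57.ZP.order_near (V l) (hVn l) (hQV l) hP (g l j β) (h l j β) (c j β)
      (e l j β) (hcoef _ fun k hk => hmem _ (Finset.mem_union_left _ (Finset.mem_union_left _
        (Finset.mem_image_of_mem _ hk)))) (hcoef _ fun k hk => hmem _ (Finset.mem_union_left _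
        (Finset.mem_union_right _ (Finset.mem_image_of_mem _ hk)))) hg0 hh0
      (hmem _ (Finset.mem_union_right _ (Finset.mem_insert_self _ _)))
      (hmem _ (Finset.mem_union_right _ (Finset.mem_insert_of_mem
        (Finset.mem_singleton_self _)))) heq
  have hloc : ∀ l, loc (Q l) P ≠ 0 := fun l h0 => hnot.2 l ⟨hP, h0⟩
  obtain ⟨l0, -⟩ := hgen ⊥ (by rw [finrank_bot]; omega)
  have hc0 : ∀ j, ∀ β ∈ A j, w j β * MvPolynomial.eval P (c j β) ≠ 0 := by
    intro j β hβ h0
    rcases mul_eq_zero.1 h0 with h0 | h0
    · exact (hw j β hβ).1 h0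
    · have h1 := hV3 l0 j β hβ
      rw [h0, map_zero] at h1
      exact pow_ne_zero _ ((Valuation.ne_zero_iff _).2 (hloc l0)) h1.symm
  intro Λ η hη B hBX hBT hB
  refine Pool.Agent.Y199.ZF.crit A hA (fun j β => w j β * MvPolynomial.eval P (c j β)) hc0 V
    (fun l => loc (Q l) P) hloc hV1 (fun l j β => (e l j β : ℤ)) (fun l j β hβ => ?_) ?_ Λ η
    (fun i => (hη i).1) (fun l i => hunit l _ (hη i)) B hBX hBT hB
  · change (V l).valuation (w j β * MvPolynomial.eval P (c j β)) =
      (V l).valuation (loc (Q l) P) ^ ((e l j β : ℕ) : ℤ)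
    rw [map_mul, hunit l _ (hw j β hβ), one_mul, hV3 l j β hβ, zpow_natCast]
  · exact hgen

end Pool.Agent.Results.MP_b7926e_nt.TwistsOverEllipticCurves
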